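import Pool.Agent.K1H64.ST.Defs

/-! # The expected stretch of the random map (`S_STRF`) -/

set_option autoImplicit false

noncomputable section

namespace Pool.Agent.K1H2.ST

open Finset Pool.Agent.K1H64.ST

/-! ## Flips and telescoping -/

theorem flipV_flipV {n : ℕ} (S : Finset (Fin n)) (x : Cube n) : flipV S (flipV S x) = x := by
  funext i
  simp [flipV]

theorem flipV_insert {n : ℕ} (q : Fin n) (S : Finset (Fin n)) (hq : q ∉ S) (x : Cube n) :
    flipV (insert q S) x = flipV {q} (flipV S x) := by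
  funext i
  unfold flipV
  by_cases h : i = q
  · subst h
    simp [hq]
  · simp [h]

/-- Flipping as an equivalence. -/
def flipE {n : ℕ} (S : Finset (Fin n)) : Cube n ≃ Cube n :=
  ⟨flipV S, flipV S, flipV_flipV S, flipV_flipV S⟩

theorem tele {n : ℕ} (f : Cube n → Cube n → ℝ) (h0 : ∀ s, f s s ≤ 0)
    (ht : ∀ s t u, f s u ≤ f s t + f t u) (Λ : Finset (Fin n)) :
    ∑ s, f s (flipV Λ s) ≤ ∑ q ∈ Λ, ∑ s, f s (flipV {q} s) := by
  induction Λ using Finset.induction_on with
  | empty =>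
    simp only [sum_empty]
    refine Finset.sum_nonpos (fun s _ => ?_)
    have : flipV ∅ s = s := by
      funext i; simp [flipV]
    rw [this]; exact h0 s
  | insert q Λ hq ih =>
    rw [sum_insert hq]
    have h1 : ∑ s, f s (flipV (insert q Λ) s) ≤
        ∑ s, f s (flipV Λ s) + ∑ s, f (flipV Λ s) (flipV {q} (flipV Λ s)) := by
      rw [← sum_add_distrib]
      refine sum_le_sum (fun s _ => ?_)
      rw [flipV_insert q Λ hq]
      exact ht _ _ _
    have h2 : ∑ s, f (flipV Λ s) (flipV {q} (flipV Λ s)) = ∑ s, f s (flipV {q} s) :=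
      Equiv.sum_comp (flipE Λ) (fun s => f s (flipV {q} s))
    linarith

/-! ## Averages over functions -/

theorem sum_eval {ι α : Type} [Fintype ι] [DecidableEq ι] [Fintype α] (a : ι) (g : α → ℝ) :
    (∑ f : ι → α, g (f a)) * (Fintype.card α : ℝ) = (Fintype.card (ι → α) : ℝ) * ∑ u, g u := by
  have e := Equiv.funSplitAt a α
  have h1 : ∑ f : ι → α, g (f a) = ∑ p : α × ({j // j ≠ a} → α), g p.1 := by
    refine Fintype.sum_equiv (Equiv.funSplitAt a α) _ _ (fun f => ?_)
    rfl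
  have h2 : Fintype.card (ι → α) = Fintype.card α * Fintype.card ({j // j ≠ a} → α) := by
    rw [← Fintype.card_prod]
    exact Fintype.card_congr (Equiv.funSplitAt a α)
  rw [h1, h2, Fintype.sum_prod_type]
  simp only [sum_const, card_univ, nsmul_eq_mul]
  rw [← mul_sum]
  push_cast
  ring

theorem sum_Rnd1 {n N cm : ℕ} (a : Cube n) (g : Fin N → ℝ) :
    (∑ R : Rnd n N cm, g (R.1 a)) * (N : ℝ) = (Fintype.card (Rnd n N cm) : ℝ) * ∑ r, g r := by
  have h := sum_eval (ι := Cube n) (α := Fin N) a g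
  rw [Fintype.card_fin] at h
  rw [Fintype.sum_prod_type]
  simp only [sum_const, card_univ, nsmul_eq_mul]
  rw [← mul_sum, mul_assoc, h, Fintype.card_prod]
  push_cast
  ring

theorem sum_Rnd {n N cm : ℕ} (a : Cube n) (c : Fin cm) (β : Cube n)
    (g : Fin N → Equiv.Perm (Fin N) → ℝ) :
    (∑ R : Rnd n N cm, g (R.1 a) (R.2 c β)) * (N * (Fintype.card (Equiv.Perm (Fin N)) : ℝ)) =
      (Fintype.card (Rnd n N cm) : ℝ) * ∑ r, ∑ σ, g r σ := by
  have h2 : ∀ r : Fin N, (∑ f : Fin cm → Cube n → Equiv.Perm (Fin N), g r (f c β)) *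
      (Fintype.card (Equiv.Perm (Fin N)) : ℝ) =
      (Fintype.card (Fin cm → Cube n → Equiv.Perm (Fin N)) : ℝ) * ∑ σ, g r σ := by
    intro r
    have e1 := sum_eval (ι := Fin cm) (α := Cube n → Equiv.Perm (Fin N)) c (fun h => g r (h β))
    have e2 := sum_eval (ι := Cube n) (α := Equiv.Perm (Fin N)) β (fun σ => g r σ)
    have hpos : (0 : ℝ) < (Fintype.card (Cube n → Equiv.Perm (Fin N)) : ℝ) := by
      exact_mod_cast Fintype.card_pos
    apply mul_right_cancel₀ hpos.ne'
    calc (∑ f : Fin cm → Cube n → Equiv.Perm (Fin N), g r (f c β)) *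
          (Fintype.card (Equiv.Perm (Fin N)) : ℝ) * (Fintype.card (Cube n → Equiv.Perm (Fin N)) : ℝ)
        = ((∑ f : Fin cm → Cube n → Equiv.Perm (Fin N), g r (f c β)) *
          (Fintype.card (Cube n → Equiv.Perm (Fin N)) : ℝ)) *
            (Fintype.card (Equiv.Perm (Fin N)) : ℝ) := by ring
      _ = (Fintype.card (Fin cm → Cube n → Equiv.Perm (Fin N)) : ℝ) *
          ((∑ h : Cube n → Equiv.Perm (Fin N), g r (h β)) *
            (Fintype.card (Equiv.Perm (Fin N)) : ℝ)) := by rw [e1]; ring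
      _ = _ := by rw [e2]; ring
  have h1 := sum_eval (ι := Cube n) (α := Fin N) a (fun r => ∑ σ, g r σ)
  rw [Fintype.card_fin] at h1
  rw [Fintype.sum_prod_type]
  calc (∑ f : Cube n → Fin N, ∑ f' : Fin cm → Cube n → Equiv.Perm (Fin N), g (f a) (f' c β)) *
        (N * (Fintype.card (Equiv.Perm (Fin N)) : ℝ))
      = (∑ f : Cube n → Fin N, (∑ f' : Fin cm → Cube n → Equiv.Perm (Fin N), g (f a) (f' c β)) *
          (Fintype.card (Equiv.Perm (Fin N)) : ℝ)) * N := by
        rw [← sum_mul]; ring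
    _ = (Fintype.card (Fin cm → Cube n → Equiv.Perm (Fin N)) : ℝ) *
          ((∑ f : Cube n → Fin N, ∑ σ, g (f a) σ) * N) := by
        simp only [h2]
        rw [← mul_sum]; ring
    _ = _ := by
        rw [h1, Fintype.card_prod]; push_cast; ring

/-! ## The first element -/

theorem fst_mem {N : ℕ} (σ : Equiv.Perm (Fin N)) (S : Finset (Fin N)) (d : Fin N)
    (h : S.Nonempty) : fstσ σ S d ∈ S := by
  unfold fstσ
  rw [dif_pos h]
  have := (S.image σ).min'_mem (h.image _)
  obtain ⟨a, ha, hae⟩ := mem_image.mp this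
  rw [← hae]
  simpa using ha

theorem Q1 (hF : S_FST) {N : ℕ} (S : Finset (Fin N)) (ω : Fin N) (hω : ω ∈ S) :
    ∑ r : Fin N, ∑ σ : Equiv.Perm (Fin N), (if r ∈ S ∧ fstσ σ S r = ω then (1 : ℝ) else 0) =
      (Fintype.card (Equiv.Perm (Fin N)) : ℝ) := by
  have hc : (0 : ℝ) < (S.card : ℝ) := by exact_mod_cast card_pos.mpr ⟨ω, hω⟩
  have h1 : ∀ r : Fin N, ∑ σ : Equiv.Perm (Fin N),
      (if r ∈ S ∧ fstσ σ S r = ω then (1 : ℝ) else 0) =
      if r ∈ S then (Fintype.card (Equiv.Perm (Fin N)) : ℝ) / S.card else 0 := by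
    intro r
    by_cases hr : r ∈ S
    · simp only [hr, true_and, if_true]
      rw [← sum_filter, sum_const, nsmul_eq_mul, mul_one, eq_div_iff hc.ne']
      exact (hF N S S r ω ω).1 hω
    · simp [hr]
  simp only [h1]
  rw [← sum_filter, sum_const, nsmul_eq_mul, filter_univ_mem]
  field_simp

theorem Q3 (hF : S_FST) {N : ℕ} (S S' : Finset (Fin N)) (ω : Fin N) :
    ∑ r : Fin N, ∑ σ : Equiv.Perm (Fin N),
      (if r ∈ S ∧ r ∈ S' ∧ fstσ σ S r = ω ∧ fstσ σ S' r = ω then (1 : ℝ) else 0) ≤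
      (Fintype.card (Equiv.Perm (Fin N)) : ℝ) := by
  by_cases hω : ω ∈ S ∧ ω ∈ S'
  · have hc : (0 : ℝ) < ((S ∪ S').card : ℝ) := by
      exact_mod_cast card_pos.mpr ⟨ω, mem_union_left _ hω.1⟩
    have h1 : ∀ r : Fin N, ∑ σ : Equiv.Perm (Fin N),
        (if r ∈ S ∧ r ∈ S' ∧ fstσ σ S r = ω ∧ fstσ σ S' r = ω then (1 : ℝ) else 0) =
        if r ∈ S ∩ S' then (Fintype.card (Equiv.Perm (Fin N)) : ℝ) / (S ∪ S').card else 0 := by
      intro r
      by_cases hr : r ∈ S ∧ r ∈ S'
      · have hr' : r ∈ S ∩ S' := mem_inter.mpr hr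
        simp only [hr.1, hr.2, hr', true_and, if_true]
        rw [← sum_filter, sum_const, nsmul_eq_mul, mul_one, eq_div_iff hc.ne']
        exact (hF N S S' r ω ω).2.1 hω.1 hω.2
      · have hr' : r ∉ S ∩ S' := fun h => hr (mem_inter.mp h)
        rw [if_neg hr']
        refine sum_eq_zero (fun σ _ => ?_)
        rw [if_neg]
        rintro ⟨a, b, -⟩
        exact hr ⟨a, b⟩
    simp only [h1]
    rw [← sum_filter, sum_const, nsmul_eq_mul, filter_univ_mem, mul_div_assoc', div_le_iff₀ hc]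
    have : ((S ∩ S').card : ℝ) ≤ ((S ∪ S').card : ℝ) := by
      exact_mod_cast card_le_card (fun a ha => mem_union_left _ (mem_inter.mp ha).1)
    have hF0 : (0 : ℝ) ≤ (Fintype.card (Equiv.Perm (Fin N)) : ℝ) := Nat.cast_nonneg _
    nlinarith
  · have h0 : ∑ r : Fin N, ∑ σ : Equiv.Perm (Fin N),
        (if r ∈ S ∧ r ∈ S' ∧ fstσ σ S r = ω ∧ fstσ σ S' r = ω then (1 : ℝ) else 0) = 0 := by
      refine sum_eq_zero (fun r _ => sum_eq_zero (fun σ _ => ?_))
      rw [if_neg]
      rintro ⟨a, b, c, d⟩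
      apply hω
      constructor
      · rw [← c]; exact fst_mem σ S r ⟨r, a⟩
      · rw [← d]; exact fst_mem σ S' r ⟨r, b⟩
    rw [h0]
    exact Nat.cast_nonneg _

theorem Q4 (hF : S_FST) {N : ℕ} (S S' : Finset (Fin N)) :
    ∑ r : Fin N, ∑ σ : Equiv.Perm (Fin N),
      (if r ∈ S ∧ ¬ (r ∈ S' ∧ fstσ σ S r = fstσ σ S' r) then (1 : ℝ) else 0) ≤
      2 * ((univ.filter (fun ω => ¬ (ω ∈ S ↔ ω ∈ S'))).card : ℝ) *
        (Fintype.card (Equiv.Perm (Fin N)) : ℝ) := by
  set F : ℝ := (Fintype.card (Equiv.Perm (Fin N)) : ℝ) with hFdef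
  set D : ℝ := ((univ.filter (fun ω => ¬ (ω ∈ S ↔ ω ∈ S'))).card : ℝ) with hD
  have hF0 : 0 ≤ F := Nat.cast_nonneg _
  have hD0 : 0 ≤ D := Nat.cast_nonneg _
  have hU : ((S ∪ S').card : ℝ) = ((S ∩ S').card : ℝ) + D := by
    rw [hD]
    have : (S ∪ S').card = (S ∩ S').card + (univ.filter (fun ω => ¬ (ω ∈ S ↔ ω ∈ S'))).card := by
      rw [← card_union_of_disjoint]
      · congr 1
        ext a
        simp only [mem_union, mem_inter, mem_filter, mem_univ, true_and]
        tauto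
      · rw [disjoint_left]
        intro a ha hb
        simp only [mem_inter, mem_filter, mem_univ, true_and] at ha hb
        tauto
    exact_mod_cast this
  have hsd : ((S \ S').card : ℝ) ≤ D := by
    rw [hD]
    exact_mod_cast card_le_card (fun a ha => by
      simp only [mem_sdiff, mem_filter, mem_univ, true_and] at ha ⊢
      tauto)
  have h1 : ∀ r : Fin N, ∑ σ : Equiv.Perm (Fin N),
      (if r ∈ S ∧ ¬ (r ∈ S' ∧ fstσ σ S r = fstσ σ S' r) then (1 : ℝ) else 0) ≤
      (if r ∈ S \ S' then F else 0) + (if r ∈ S ∩ S' then F * D / (S ∪ S').card else 0) := by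
    intro r
    by_cases hr : r ∈ S
    · by_cases hr' : r ∈ S'
      · have e1 : r ∉ S \ S' := by simp [hr']
        have e2 : r ∈ S ∩ S' := by simp [hr, hr']
        have hc : (0 : ℝ) < ((S ∪ S').card : ℝ) := by
          exact_mod_cast card_pos.mpr ⟨r, mem_union_left _ hr⟩
        rw [if_neg e1, if_pos e2, zero_add]
        have hb : ∀ σ : Equiv.Perm (Fin N),
            (if r ∈ S ∧ ¬ (r ∈ S' ∧ fstσ σ S r = fstσ σ S' r) then (1 : ℝ) else 0) ≤
            1 - ∑ ω ∈ S ∩ S', (if fstσ σ S r = ω ∧ fstσ σ S' r = ω then (1 : ℝ) else 0) := by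
          intro σ
          by_cases he : fstσ σ S r = fstσ σ S' r
          · rw [if_neg (by tauto)]
            have : ∑ ω ∈ S ∩ S', (if fstσ σ S r = ω ∧ fstσ σ S' r = ω then (1 : ℝ) else 0) ≤ 1 := by
              rw [sum_eq_single (fstσ σ S r)]
              · split_ifs <;> norm_num
              · intro w _ hw
                rw [if_neg]
                rintro ⟨h, -⟩
                exact hw h.symm
              · intro h
                exact absurd (mem_inter.mpr ⟨fst_mem σ S r ⟨r, hr⟩,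
                  he ▸ fst_mem σ S' r ⟨r, hr'⟩⟩) h
            linarith
          · rw [if_pos ⟨hr, by tauto⟩]
            rw [sum_eq_zero]
            · norm_num
            · intro w _
              rw [if_neg]
              rintro ⟨h, h'⟩
              exact he (h.trans h'.symm)
        refine (sum_le_sum (fun σ _ => hb σ)).trans ?_
        rw [sum_sub_distrib, sum_comm]
        have h3 : ∀ ω ∈ S ∩ S', ∑ σ : Equiv.Perm (Fin N),
            (if fstσ σ S r = ω ∧ fstσ σ S' r = ω then (1 : ℝ) else 0) = F / (S ∪ S').card := by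
          intro ω hω
          rw [← sum_filter, sum_const, nsmul_eq_mul, mul_one, eq_div_iff hc.ne']
          exact (hF N S S' r ω ω).2.1 (mem_inter.mp hω).1 (mem_inter.mp hω).2
        rw [sum_congr rfl h3]
        simp only [sum_const, card_univ, nsmul_eq_mul, mul_one]
        rw [← hFdef, le_div_iff₀ hc, sub_mul]
        have : ((S ∩ S').card : ℝ) * (F / ((S ∪ S').card : ℝ)) * ((S ∪ S').card : ℝ) =
            ((S ∩ S').card : ℝ) * F := by
          field_simp
        rw [this, hU]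
        nlinarith
      · have e1 : r ∈ S \ S' := by simp [hr, hr']
        have e2 : r ∉ S ∩ S' := by simp [hr']
        rw [if_pos e1, if_neg e2, add_zero]
        simp [hr, hr', hFdef]
    · have e1 : r ∉ S \ S' := by simp [hr]
      have e2 : r ∉ S ∩ S' := by simp [hr]
      rw [if_neg e1, if_neg e2]
      simp [hr]
  refine (sum_le_sum (fun r _ => h1 r)).trans ?_
  rw [sum_add_distrib, ← sum_filter, ← sum_filter, sum_const, sum_const, nsmul_eq_mul,
    nsmul_eq_mul, filter_univ_mem, filter_univ_mem]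
  have h4 : ((S ∩ S').card : ℝ) * (F * D / ((S ∪ S').card : ℝ)) ≤ F * D := by
    by_cases hz : ((S ∪ S').card : ℝ) = 0
    · rw [hz, div_zero, mul_zero]
      exact mul_nonneg hF0 hD0
    · have hc : (0 : ℝ) < ((S ∪ S').card : ℝ) := lt_of_le_of_ne (Nat.cast_nonneg _) (Ne.symm hz)
      rw [mul_div_assoc', div_le_iff₀ hc, hU]
      nlinarith [mul_nonneg hF0 hD0, mul_nonneg (mul_nonneg hF0 hD0) hD0]
  nlinarith [mul_le_mul_of_nonneg_right hsd hF0]

end Pool.Agent.K1H2.ST
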