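import Pool.Agent.K1H2.ST.Strf

/-! # The expected stretch of the random map (`S_STRF`), part two -/

set_option autoImplicit false

noncomputable section

namespace Pool.Agent.K1H2.ST

open Finset Pool.Agent.K1H64.ST

theorem msk_flip {n : ℕ} (B : Finset (Fin n)) (i : Fin n) (hi : i ∉ B) (x : Cube n) :
    msk B (flipV {i} x) = msk B x := by
  funext k
  unfold msk flipV
  by_cases hk : k = i
  · subst hk
    simp [hi]
  · simp [hk]

section

variable {n N cm : ℕ} (T : Cube n → Fin N → Cube (n + 1)) (cl : Cube n → Fin N → ℕ)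
  (L : Cube n → Cube n) (B : ℕ → Finset (Fin n)) (π : Equiv.Perm (Fin n))

/-- The class `c` of seeds at the position of `x`. -/
def SS (x : Cube n) (c : ℕ) : Finset (Fin N) := univ.filter (fun ω => cl (pos L π x) ω = c)

theorem seed_eq (R : Rnd n N cm) (x : Cube n) (c : ℕ) (hc : c < cm)
    (h : kls cl L B π R x = c) :
    seed cl L B π R x = fstσ (R.2 ⟨c, hc⟩ (msk (B c) x)) (SS cl L π x c) (R.1 (msk (B 0) x)) := by
  subst h
  unfold seed
  rw [dif_pos hc]
  rfl

theorem kls_mem (R : Rnd n N cm) (x : Cube n) (c : ℕ) :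
    kls cl L B π R x = c ↔ R.1 (msk (B 0) x) ∈ SS cl L π x c := by
  unfold SS kls
  simp

theorem seed_cl (R : Rnd n N cm) (x : Cube n) (hc : kls cl L B π R x < cm) :
    cl (pos L π x) (seed cl L B π R x) = kls cl L B π R x := by
  rw [seed_eq cl L B π R x _ hc rfl]
  have h1 := (kls_mem cl L B π R x _).mp rfl
  have h2 := fst_mem (R.2 ⟨_, hc⟩ (msk (B (kls cl L B π R x)) x)) (SS cl L π x (kls cl L B π R x))
    (R.1 (msk (B 0) x)) ⟨_, h1⟩
  unfold SS at h2
  exact (mem_filter.mp h2).2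

/-- `x` and its neighbour in direction `i` have the same class and the same seed, read off the same
random variables. -/
def Same (i : Fin n) (R : Rnd n N cm) (x : Cube n) : Prop :=
  i ∉ B (kls cl L B π R x) ∧ kls cl L B π R x < cm ∧
    kls cl L B π R (flipV {i} x) = kls cl L B π R x ∧
    seed cl L B π R (flipV {i} x) = seed cl L B π R x

theorem same_flip (i : Fin n) (R : Rnd n N cm) (x : Cube n) :
    Same cl L B π i R (flipV {i} x) ↔ Same cl L B π i R x := by
  unfold Same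
  rw [flipV_flipV]
  constructor
  · rintro ⟨a, b, c, d⟩
    exact ⟨c ▸ a, c ▸ b, c.symm, d.symm⟩
  · rintro ⟨a, b, c, d⟩
    exact ⟨c ▸ a, c ▸ b, c.symm, d.symm⟩

theorem B0_sub (hm : ∀ c, B c ⊆ B (c + 1)) (c : ℕ) : B 0 ⊆ B c := by
  induction c with
  | zero => exact subset_rfl
  | succ c ih => exact ih.trans (hm c)

open Classical in
theorem A1 (hF : S_FST) (hN : 0 < N) (x : Cube n) (ω : Fin N) :
    (∑ R : Rnd n N cm, (if kls cl L B π R x < cm ∧ seed cl L B π R x = ω then (1 : ℝ) else 0)) ≤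
      (Fintype.card (Rnd n N cm) : ℝ) / N := by
  have hN' : (0 : ℝ) < (N : ℝ) := by exact_mod_cast hN
  by_cases hc : cl (pos L π x) ω < cm
  · have h := sum_Rnd (n := n) (N := N) (cm := cm) (msk (B 0) x) ⟨cl (pos L π x) ω, hc⟩
      (msk (B (cl (pos L π x) ω)) x)
      (fun r σ => if r ∈ SS cl L π x (cl (pos L π x) ω) ∧
        fstσ σ (SS cl L π x (cl (pos L π x) ω)) r = ω then (1 : ℝ) else 0)
    rw [Q1 hF (SS cl L π x (cl (pos L π x) ω)) ω (by simp [SS])] at h
    have hp : (0 : ℝ) < (Fintype.card (Equiv.Perm (Fin N)) : ℝ) := by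
      exact_mod_cast Fintype.card_pos
    have h' : (∑ R : Rnd n N cm, (if R.1 (msk (B 0) x) ∈ SS cl L π x (cl (pos L π x) ω) ∧
        fstσ (R.2 ⟨cl (pos L π x) ω, hc⟩ (msk (B (cl (pos L π x) ω)) x))
          (SS cl L π x (cl (pos L π x) ω)) (R.1 (msk (B 0) x)) = ω then (1 : ℝ) else 0)) * N =
        (Fintype.card (Rnd n N cm) : ℝ) := by
      apply mul_right_cancel₀ hp.ne'
      rw [mul_assoc]
      exact h
    rw [le_div_iff₀ hN', ← h']
    refine mul_le_mul_of_nonneg_right (sum_le_sum (fun R _ => ?_)) hN'.le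
    by_cases hE : kls cl L B π R x < cm ∧ seed cl L B π R x = ω
    · have hk : kls cl L B π R x = cl (pos L π x) ω := by
        rw [← hE.2]; exact (seed_cl cl L B π R x hE.1).symm
      rw [if_pos hE, if_pos]
      refine ⟨(kls_mem cl L B π R x _).mp hk, ?_⟩
      rw [← seed_eq cl L B π R x _ hc hk]
      exact hE.2
    · rw [if_neg hE]
      positivity
  · rw [sum_eq_zero]
    · positivity
    · intro R _
      rw [if_neg]
      rintro ⟨h1, h2⟩
      apply hc
      rw [← h2, seed_cl cl L B π R x h1]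
      exact h1

open Classical in
theorem A3 (hm : ∀ c, B c ⊆ B (c + 1)) (hF : S_FST) (hN : 0 < N) (i : Fin n) (x : Cube n)
    (ω : Fin N) :
    (∑ R : Rnd n N cm, (if Same cl L B π i R x ∧ seed cl L B π R x = ω then (1 : ℝ) else 0)) ≤
      (Fintype.card (Rnd n N cm) : ℝ) / N := by
  have hN' : (0 : ℝ) < (N : ℝ) := by exact_mod_cast hN
  by_cases hc : cl (pos L π x) ω < cm ∧ i ∉ B (cl (pos L π x) ω)
  · obtain ⟨hc, hi⟩ := hc
    have hi0 : i ∉ B 0 := fun h => hi (B0_sub B hm _ h)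
    have h := sum_Rnd (n := n) (N := N) (cm := cm) (msk (B 0) x) ⟨cl (pos L π x) ω, hc⟩
      (msk (B (cl (pos L π x) ω)) x)
      (fun r σ => if r ∈ SS cl L π x (cl (pos L π x) ω) ∧
        r ∈ SS cl L π (flipV {i} x) (cl (pos L π x) ω) ∧
        fstσ σ (SS cl L π x (cl (pos L π x) ω)) r = ω ∧
        fstσ σ (SS cl L π (flipV {i} x) (cl (pos L π x) ω)) r = ω then (1 : ℝ) else 0)
    have hq := Q3 hF (SS cl L π x (cl (pos L π x) ω)) (SS cl L π (flipV {i} x) (cl (pos L π x) ω)) ω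
    have hp : (0 : ℝ) < (Fintype.card (Equiv.Perm (Fin N)) : ℝ) := by
      exact_mod_cast Fintype.card_pos
    have hR0 : (0 : ℝ) ≤ (Fintype.card (Rnd n N cm) : ℝ) := Nat.cast_nonneg _
    rw [le_div_iff₀ hN']
    refine le_trans (mul_le_mul_of_nonneg_right (sum_le_sum (g := fun R : Rnd n N cm =>
      if R.1 (msk (B 0) x) ∈ SS cl L π x (cl (pos L π x) ω) ∧
        R.1 (msk (B 0) x) ∈ SS cl L π (flipV {i} x) (cl (pos L π x) ω) ∧
        fstσ (R.2 ⟨cl (pos L π x) ω, hc⟩ (msk (B (cl (pos L π x) ω)) x))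
          (SS cl L π x (cl (pos L π x) ω)) (R.1 (msk (B 0) x)) = ω ∧
        fstσ (R.2 ⟨cl (pos L π x) ω, hc⟩ (msk (B (cl (pos L π x) ω)) x))
          (SS cl L π (flipV {i} x) (cl (pos L π x) ω)) (R.1 (msk (B 0) x)) = ω then (1 : ℝ) else 0)
      (fun R _ => ?_)) hN'.le) ?_
    · by_cases hE : Same cl L B π i R x ∧ seed cl L B π R x = ω
      · obtain ⟨⟨s1, s2, s3, s4⟩, s5⟩ := hE
        have hk : kls cl L B π R x = cl (pos L π x) ω := by
          rw [← s5]; exact (seed_cl cl L B π R x s2).symm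
        have hk' : kls cl L B π R (flipV {i} x) = cl (pos L π x) ω := s3.trans hk
        rw [if_pos ⟨⟨s1, s2, s3, s4⟩, s5⟩, if_pos]
        refine ⟨(kls_mem cl L B π R x _).mp hk, ?_, ?_, ?_⟩
        · have := (kls_mem cl L B π R (flipV {i} x) _).mp hk'
          rwa [msk_flip _ _ hi0] at this
        · rw [← seed_eq cl L B π R x _ hc hk]
          exact s5
        · have := seed_eq cl L B π R (flipV {i} x) _ hc hk'
          rw [msk_flip _ _ hi0, msk_flip _ _ hi] at this
          rw [← this, s4, s5]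
      · rw [if_neg hE]
        positivity
    · have h' : (∑ R : Rnd n N cm, (if R.1 (msk (B 0) x) ∈ SS cl L π x (cl (pos L π x) ω) ∧
        R.1 (msk (B 0) x) ∈ SS cl L π (flipV {i} x) (cl (pos L π x) ω) ∧
        fstσ (R.2 ⟨cl (pos L π x) ω, hc⟩ (msk (B (cl (pos L π x) ω)) x))
          (SS cl L π x (cl (pos L π x) ω)) (R.1 (msk (B 0) x)) = ω ∧
        fstσ (R.2 ⟨cl (pos L π x) ω, hc⟩ (msk (B (cl (pos L π x) ω)) x))
          (SS cl L π (flipV {i} x) (cl (pos L π x) ω)) (R.1 (msk (B 0) x)) = ω then (1 : ℝ)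
          else 0)) * N * (Fintype.card (Equiv.Perm (Fin N)) : ℝ) ≤
          (Fintype.card (Rnd n N cm) : ℝ) * (Fintype.card (Equiv.Perm (Fin N)) : ℝ) := by
        rw [mul_assoc]
        refine h.le.trans ?_
        exact mul_le_mul_of_nonneg_left hq hR0
      exact le_of_mul_le_mul_right h' hp
  · rw [sum_eq_zero]
    · positivity
    · intro R _
      rw [if_neg]
      rintro ⟨⟨s1, s2, s3, s4⟩, s5⟩
      have hk : kls cl L B π R x = cl (pos L π x) ω := by
        rw [← s5]; exact (seed_cl cl L B π R x s2).symm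
      apply hc
      rw [← hk]
      exact ⟨s2, s1⟩

theorem A5 (hN : 0 < N) (x : Cube n) (p : ℕ → Prop) [DecidablePred p] :
    (∑ R : Rnd n N cm, (if p (kls cl L B π R x) then (1 : ℝ) else 0)) =
      (Fintype.card (Rnd n N cm) : ℝ) *
        (((univ.filter (fun ω : Fin N => p (cl (pos L π x) ω))).card : ℝ) / N) := by
  have hN' : (0 : ℝ) < (N : ℝ) := by exact_mod_cast hN
  have h := sum_Rnd1 (n := n) (N := N) (cm := cm) (msk (B 0) x)
    (fun r => if p (cl (pos L π x) r) then (1 : ℝ) else 0)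
  rw [← mul_div_assoc, eq_div_iff hN'.ne']
  refine h.trans ?_
  rw [← sum_filter, sum_const, nsmul_eq_mul, mul_one]

open Classical in
theorem A4 (hm : ∀ c, B c ⊆ B (c + 1)) (hF : S_FST) (hN : 0 < N) (i : Fin n) (x : Cube n)
    (c : ℕ) (hc : c < cm) :
    (∑ R : Rnd n N cm, (if kls cl L B π R x = c ∧ ¬ Same cl L B π i R x then (1 : ℝ) else 0)) ≤
      (Fintype.card (Rnd n N cm) : ℝ) *
        ((if i ∈ B c then ((univ.filter (fun ω : Fin N => cl (pos L π x) ω = c)).card : ℝ) / N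
          else 0) +
        2 * ((univ.filter (fun ω : Fin N => ¬ (cl (pos L π x) ω = c ↔
          cl (pos L π (flipV {i} x)) ω = c))).card : ℝ) / N) := by
  have hN' : (0 : ℝ) < (N : ℝ) := by exact_mod_cast hN
  have hR0 : (0 : ℝ) ≤ (Fintype.card (Rnd n N cm) : ℝ) := Nat.cast_nonneg _
  by_cases hi : i ∈ B c
  · rw [if_pos hi]
    have h5 := A5 (cm := cm) cl L B π hN x (fun k => k = c)
    refine le_trans (sum_le_sum (g := fun R : Rnd n N cm =>
      if kls cl L B π R x = c then (1 : ℝ) else 0) (fun R _ => ?_)) ?_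
    · by_cases h1 : kls cl L B π R x = c
      · rw [if_pos h1]
        split_ifs <;> norm_num
      · rw [if_neg h1, if_neg]
        exact fun h => h1 h.1
    · rw [h5]
      refine mul_le_mul_of_nonneg_left ?_ hR0
      have : (0 : ℝ) ≤ 2 * ((univ.filter (fun ω : Fin N => ¬ (cl (pos L π x) ω = c ↔
          cl (pos L π (flipV {i} x)) ω = c))).card : ℝ) / N := by positivity
      have e : ((univ.filter (fun ω : Fin N => cl (pos L π x) ω = c)).card : ℝ) =
        ((univ.filter (fun ω : Fin N => cl (pos L π x) ω = c)).card : ℝ) := rfl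
      linarith
  · rw [if_neg hi, zero_add]
    have hi0 : i ∉ B 0 := fun h => hi (B0_sub B hm _ h)
    have h := sum_Rnd (n := n) (N := N) (cm := cm) (msk (B 0) x) ⟨c, hc⟩ (msk (B c) x)
      (fun r σ => if r ∈ SS cl L π x c ∧ ¬ (r ∈ SS cl L π (flipV {i} x) c ∧
        fstσ σ (SS cl L π x c) r = fstσ σ (SS cl L π (flipV {i} x) c) r) then (1 : ℝ) else 0)
    have hq := Q4 hF (SS cl L π x c) (SS cl L π (flipV {i} x) c)
    have hp : (0 : ℝ) < (Fintype.card (Equiv.Perm (Fin N)) : ℝ) := by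
      exact_mod_cast Fintype.card_pos
    have he : ((univ.filter (fun ω => ¬ (ω ∈ SS cl L π x c ↔ ω ∈ SS cl L π (flipV {i} x) c))).card
        : ℝ) = ((univ.filter (fun ω : Fin N => ¬ (cl (pos L π x) ω = c ↔
          cl (pos L π (flipV {i} x)) ω = c))).card : ℝ) := by
      congr 2
      ext ω
      simp [SS]
    rw [he] at hq
    rw [← mul_div_assoc, le_div_iff₀ hN']
    refine le_trans (mul_le_mul_of_nonneg_right (sum_le_sum (g := fun R : Rnd n N cm =>
      if R.1 (msk (B 0) x) ∈ SS cl L π x c ∧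
        ¬ (R.1 (msk (B 0) x) ∈ SS cl L π (flipV {i} x) c ∧
        fstσ (R.2 ⟨c, hc⟩ (msk (B c) x)) (SS cl L π x c) (R.1 (msk (B 0) x)) =
        fstσ (R.2 ⟨c, hc⟩ (msk (B c) x)) (SS cl L π (flipV {i} x) c) (R.1 (msk (B 0) x)))
      then (1 : ℝ) else 0)
      (fun R _ => ?_)) hN'.le) ?_
    · by_cases hE : kls cl L B π R x = c ∧ ¬ Same cl L B π i R x
      · obtain ⟨e1, e2⟩ := hE
        rw [if_pos ⟨e1, e2⟩, if_pos]
        refine ⟨(kls_mem cl L B π R x _).mp e1, ?_⟩
        rintro ⟨f1, f2⟩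
        apply e2
        have hk' : kls cl L B π R (flipV {i} x) = c := by
          rw [kls_mem, msk_flip _ _ hi0]
          exact f1
        refine ⟨e1 ▸ hi, e1 ▸ hc, hk'.trans e1.symm, ?_⟩
        rw [seed_eq cl L B π R x c hc e1, seed_eq cl L B π R (flipV {i} x) c hc hk',
          msk_flip _ _ hi0, msk_flip _ _ hi]
        exact f2.symm
      · rw [if_neg hE]
        positivity
    · have h' : (∑ R : Rnd n N cm, (if R.1 (msk (B 0) x) ∈ SS cl L π x c ∧
        ¬ (R.1 (msk (B 0) x) ∈ SS cl L π (flipV {i} x) c ∧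
        fstσ (R.2 ⟨c, hc⟩ (msk (B c) x)) (SS cl L π x c) (R.1 (msk (B 0) x)) =
        fstσ (R.2 ⟨c, hc⟩ (msk (B c) x)) (SS cl L π (flipV {i} x) c) (R.1 (msk (B 0) x)))
          then (1 : ℝ) else 0)) * N * (Fintype.card (Equiv.Perm (Fin N)) : ℝ) ≤
          (Fintype.card (Rnd n N cm) : ℝ) *
          (2 * ((univ.filter (fun ω : Fin N => ¬ (cl (pos L π x) ω = c ↔
          cl (pos L π (flipV {i} x)) ω = c))).card : ℝ)) *
          (Fintype.card (Equiv.Perm (Fin N)) : ℝ) := by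
        rw [mul_assoc, mul_assoc]
        refine h.le.trans ?_
        exact mul_le_mul_of_nonneg_left hq hR0
      exact le_of_mul_le_mul_right h' hp

end

end Pool.Agent.K1H2.ST
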