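import Pool.Agent.K1H2.ST.Strf2

/-! # The expected stretch of the random map (`S_STRF`), part three -/

set_option autoImplicit false

noncomputable section

namespace Pool.Agent.K1H2.ST

open Finset Pool.Agent.K1H64.ST

theorem cardprod {α β : Type} [Fintype α] [Fintype β] (p : α → β → Prop)
    [∀ a b, Decidable (p a b)] :
    ((univ.filter (fun q : α × β => p q.1 q.2)).card : ℝ) =
      ∑ a, ((univ.filter (fun b => p a b)).card : ℝ) := by
  simp only [card_filter]
  push_cast
  rw [Fintype.sum_prod_type]

section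

variable {n N cm : ℕ} (T : Cube n → Fin N → Cube (n + 1)) (cl : Cube n → Fin N → ℕ)
  (L : Cube n → Cube n) (B : ℕ → Finset (Fin n)) (π : Equiv.Perm (Fin n))

/-- The coordinates of the position which are flipped when coordinate `i` is flipped. -/
def Lam (i : Fin n) : Finset (Fin n) :=
  univ.filter (fun q => L (fun k => decide (k = i)) (π q) = true)

theorem pos_flip (hlin : ∀ x y, L (xorV x y) = xorV (L x) (L y)) (i : Fin n) (x : Cube n) :
    pos L π (flipV {i} x) = flipV (Lam L π i) (pos L π x) := by
  have h1 : flipV {i} x = xorV x (fun k => decide (k = i)) := by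
    funext k
    simp [flipV, xorV]
  rw [h1]
  funext q
  unfold pos
  rw [hlin]
  simp [xorV, flipV, Lam]

theorem Lam_card (hrow : ∀ i : Fin n, (ones (L (fun k => decide (k = i)))).card ≤ 4) (i : Fin n) :
    (Lam L π i).card ≤ 4 := by
  refine le_trans ?_ (hrow i)
  refine card_le_card_of_injOn π ?_ (π.injective.injOn)
  intro q hq
  have hq' := (mem_filter.mp (mem_coe.mp hq)).2
  exact mem_coe.mpr (mem_filter.mpr ⟨mem_univ _, hq'⟩)

theorem pos_bij (hL : Function.Bijective L) : Function.Bijective (pos L π) := by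
  have : pos L π = (fun z : Cube n => fun i => z (π i)) ∘ L := rfl
  rw [this]
  refine Function.Bijective.comp ?_ hL
  constructor
  · intro a b hab
    funext i
    have := congrFun hab (π.symm i)
    simpa using this
  · intro z
    exact ⟨fun i => z (π.symm i), by funext i; simp⟩

theorem sum_pos (hL : Function.Bijective L) (F : Cube n → ℝ) :
    ∑ x, F (pos L π x) = ∑ s, F s :=
  Function.Bijective.sum_comp (pos_bij L π hL) F

theorem tele2 (hL : Function.Bijective L) (hlin : ∀ x y, L (xorV x y) = xorV (L x) (L y))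
    (hcol : ∀ q : Fin n, (univ.filter (fun i : Fin n => L (fun k => decide (k = i)) q = true)).card
      ≤ 4)
    (f : Cube n → Cube n → ℝ) (h0 : ∀ s, f s s ≤ 0)
    (ht : ∀ s t u, f s u ≤ f s t + f t u) (hp : ∀ s t, 0 ≤ f s t) :
    ∑ i : Fin n, ∑ x, f (pos L π x) (pos L π (flipV {i} x)) ≤
      4 * ∑ q : Fin n, ∑ s, f s (flipV {q} s) := by
  have h1 : ∀ i : Fin n, ∑ x, f (pos L π x) (pos L π (flipV {i} x)) ≤
      ∑ q : Fin n, (if q ∈ Lam L π i then ∑ s, f s (flipV {q} s) else 0) := by
    intro i
    have e : ∑ x, f (pos L π x) (pos L π (flipV {i} x)) =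
        ∑ s, f s (flipV (Lam L π i) s) := by
      rw [← sum_pos L π hL (fun s => f s (flipV (Lam L π i) s))]
      exact sum_congr rfl (fun x _ => by rw [pos_flip L π hlin])
    rw [e]
    refine (tele f h0 ht (Lam L π i)).trans ?_
    rw [← sum_filter, filter_univ_mem]
  refine (sum_le_sum (fun i _ => h1 i)).trans ?_
  rw [sum_comm, mul_sum]
  refine sum_le_sum (fun q _ => ?_)
  rw [← sum_filter, sum_const, nsmul_eq_mul]
  have h2 : (univ.filter (fun i : Fin n => q ∈ Lam L π i)).card ≤ 4 := by
    have := hcol (π q)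
    have e : (univ.filter (fun i : Fin n => q ∈ Lam L π i)) =
        (univ.filter (fun i : Fin n => L (fun k => decide (k = i)) (π q) = true)) := by
      ext i
      simp [Lam]
    rw [e]
    exact this
  have h3 : (0 : ℝ) ≤ ∑ s, f s (flipV {q} s) := sum_nonneg (fun s _ => hp _ _)
  have h4 : ((univ.filter (fun i : Fin n => q ∈ Lam L π i)).card : ℝ) ≤ 4 := by exact_mod_cast h2
  exact mul_le_mul_of_nonneg_right h4 h3

theorem disp_le (s : Cube n) (z : Cube (n + 1)) : disp s z ≤ n := by
  unfold disp
  exact (card_le_univ _).trans (by simp)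

theorem hd_le (s s' : Cube n) (z w : Cube (n + 1)) :
    hammingDist z w ≤ 1 + disp s z + (univ.filter (fun i => s i ≠ s' i)).card + disp s' w := by
  have h1 : hammingDist z w ≤ 1 + (univ.filter (fun i : Fin n => z i.succ ≠ w i.succ)).card := by
    unfold hammingDist
    have : (univ.filter (fun i => z i ≠ w i)) ⊆
        {0} ∪ (univ.filter (fun i : Fin n => z i.succ ≠ w i.succ)).image Fin.succ := by
      intro i hi
      refine Fin.cases ?_ ?_ i (motive := fun i => i ∈ univ.filter (fun i => z i ≠ w i) →
        i ∈ {0} ∪ (univ.filter (fun i : Fin n => z i.succ ≠ w i.succ)).image Fin.succ) hi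
      · intro _
        simp
      · intro j hj
        refine mem_union_right _ (mem_image.mpr ⟨j, ?_, rfl⟩)
        exact mem_filter.mpr ⟨mem_univ _, (mem_filter.mp hj).2⟩
    refine (card_le_card this).trans ((card_union_le _ _).trans ?_)
    rw [card_singleton]
    exact Nat.add_le_add_left card_image_le _
  have h2 : (univ.filter (fun i : Fin n => z i.succ ≠ w i.succ)) ⊆
      (univ.filter (fun i : Fin n => z i.succ ≠ s i)) ∪ (univ.filter (fun i => s i ≠ s' i)) ∪
      (univ.filter (fun i : Fin n => w i.succ ≠ s' i)) := by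
    intro i hi
    simp only [mem_filter, mem_univ, true_and, mem_union] at hi ⊢
    by_contra hcon
    push Not at hcon
    obtain ⟨⟨a, b⟩, c⟩ := hcon
    exact hi (a.trans (b.trans c.symm))
  have h3 := card_le_card h2
  have h4 := card_union_le ((univ.filter (fun i : Fin n => z i.succ ≠ s i)) ∪
    (univ.filter (fun i => s i ≠ s' i))) (univ.filter (fun i : Fin n => w i.succ ≠ s' i))
  have h5 := card_union_le (univ.filter (fun i : Fin n => z i.succ ≠ s i))
    (univ.filter (fun i => s i ≠ s' i))
  unfold disp
  omega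

theorem pos_diff (hlin : ∀ x y, L (xorV x y) = xorV (L x) (L y))
    (hrow : ∀ i : Fin n, (ones (L (fun k => decide (k = i)))).card ≤ 4) (i : Fin n) (x : Cube n) :
    (univ.filter (fun q => pos L π x q ≠ pos L π (flipV {i} x) q)).card ≤ 4 := by
  refine le_trans (card_le_card ?_) (Lam_card L π hrow i)
  intro q hq
  rw [pos_flip L π hlin] at hq
  by_contra hcon
  have := (mem_filter.mp hq).2
  apply this
  simp [flipV, hcon]

end

end Pool.Agent.K1H2.ST
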