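import Pool.Agent.K1H2.ST.Strf3

/-! # The expected stretch of the random map (`S_STRF`), assembly -/

set_option autoImplicit false

noncomputable section

namespace Pool.Agent.K1H2.ST

open Finset Pool.Agent.K1H64.ST

section

variable {n N cm : ℕ} (T : Cube n → Fin N → Cube (n + 1)) (cl : Cube n → Fin N → ℕ)
  (L : Cube n → Cube n) (B : ℕ → Finset (Fin n)) (π : Equiv.Perm (Fin n))

theorem pow_half_sqrt (m : ℕ) : (4 : ℝ) ^ m * (1 / 2) ^ (2 ^ m) ≤ 1 := by
  have h : 2 * m ≤ 2 ^ m := by
    induction m with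
    | zero => norm_num
    | succ k ih =>
      rcases Nat.eq_zero_or_pos k with rfl | hk
      · norm_num
      · have : 2 ≤ 2 ^ k := by
          calc 2 = 2 ^ 1 := by norm_num
            _ ≤ 2 ^ k := Nat.pow_le_pow_right (by norm_num) hk
        rw [pow_succ]
        omega
  have h2 : (4 : ℝ) ^ m ≤ 2 ^ (2 ^ m) := by
    calc (4 : ℝ) ^ m = 2 ^ (2 * m) := by rw [pow_mul]; norm_num
      _ ≤ 2 ^ (2 ^ m) := pow_le_pow_right₀ (by norm_num) h
  have h3 : (0 : ℝ) < 2 ^ (2 ^ m) := by positivity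
  rw [one_div, inv_pow, ← div_eq_mul_inv, div_le_one h3]
  exact h2

open Classical in
/-- The bound for one pair. -/
theorem pair_le (hlin : ∀ x y, L (xorV x y) = xorV (L x) (L y))
    (hrow : ∀ i : Fin n, (ones (L (fun k => decide (k = i)))).card ≤ 4)
    (R : Rnd n N cm) (i : Fin n) (x : Cube n) :
    (hammingDist (FF T cl L B π R x) (FF T cl L B π R (flipV {i} x)) : ℝ) ≤
      (if Same cl L B π i R x then
        (hammingDist (T (pos L π x) (seed cl L B π R x))
          (T (pos L π (flipV {i} x)) (seed cl L B π R x)) : ℝ) else 0) +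
      ((if Same cl L B π i R x then 0 else
        (5 / 2 + (disp (pos L π x) (FF T cl L B π R x) : ℝ))) +
      (if Same cl L B π i R (flipV {i} x) then 0 else
        (5 / 2 + (disp (pos L π (flipV {i} x)) (FF T cl L B π R (flipV {i} x)) : ℝ)))) := by
  by_cases h : Same cl L B π i R x
  · have h' : Same cl L B π i R (flipV {i} x) := (same_flip cl L B π i R x).mpr h
    rw [if_pos h, if_pos h, if_pos h', add_zero, add_zero]
    unfold FF
    rw [h.2.2.2]
  · have h' : ¬ Same cl L B π i R (flipV {i} x) := fun hh => h ((same_flip cl L B π i R x).mp hh)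
    rw [if_neg h, if_neg h, if_neg h']
    have h1 := hd_le (pos L π x) (pos L π (flipV {i} x)) (FF T cl L B π R x)
      (FF T cl L B π R (flipV {i} x))
    have h2 := pos_diff L π hlin hrow i x
    have h3 : hammingDist (FF T cl L B π R x) (FF T cl L B π R (flipV {i} x)) ≤
      5 + disp (pos L π x) (FF T cl L B π R x) +
        disp (pos L π (flipV {i} x)) (FF T cl L B π R (flipV {i} x)) := by omega
    have h4 : (hammingDist (FF T cl L B π R x) (FF T cl L B π R (flipV {i} x)) : ℝ) ≤
      5 + (disp (pos L π x) (FF T cl L B π R x) : ℝ) +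
        (disp (pos L π (flipV {i} x)) (FF T cl L B π R (flipV {i} x)) : ℝ) := by exact_mod_cast h3
    linarith

open Classical in
/-- The exceptional seeds. -/
def Ex (C : ℝ) (cm : ℕ) (s : Cube n) : Finset (Fin N) :=
  univ.filter (fun ω => cl s ω < cm ∧
      C * 2 ^ (cl s ω) * Real.sqrt (n + 1) < (disp s (T s ω) : ℝ))

open Classical in
theorem ns_le (C : ℝ) (hC : 1 ≤ C) (R : Rnd n N cm) (i : Fin n) (x : Cube n) :
    (if Same cl L B π i R x then 0 else
        (5 / 2 + (disp (pos L π x) (FF T cl L B π R x) : ℝ))) ≤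
      3 * (n + 1) * (if cm ≤ kls cl L B π R x then (1 : ℝ) else 0) +
      3 * (n + 1) * (∑ ω ∈ Ex T cl C cm (pos L π x),
        if kls cl L B π R x < cm ∧ seed cl L B π R x = ω then (1 : ℝ) else 0) +
      ∑ c ∈ range cm, (3 + C) * 2 ^ c * Real.sqrt (n + 1) *
        (if kls cl L B π R x = c ∧ ¬ Same cl L B π i R x then (1 : ℝ) else 0) := by
  have hs1 : (1 : ℝ) ≤ Real.sqrt (n + 1) := by
    rw [Real.one_le_sqrt]
    have : (0 : ℝ) ≤ (n : ℝ) := Nat.cast_nonneg _
    linarith
  have hn0 : (0 : ℝ) ≤ (n : ℝ) := Nat.cast_nonneg _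
  have hA : 0 ≤ 3 * ((n : ℝ) + 1) * (if cm ≤ kls cl L B π R x then (1 : ℝ) else 0) := by
    split_ifs <;> positivity
  have hB : 0 ≤ 3 * ((n : ℝ) + 1) * (∑ ω ∈ Ex T cl C cm (pos L π x),
        if kls cl L B π R x < cm ∧ seed cl L B π R x = ω then (1 : ℝ) else 0) := by
    refine mul_nonneg (by positivity) (sum_nonneg (fun ω _ => ?_))
    split_ifs <;> norm_num
  have hD : ∀ c ∈ range cm, 0 ≤ (3 + C) * 2 ^ c * Real.sqrt (n + 1) *
        (if kls cl L B π R x = c ∧ ¬ Same cl L B π i R x then (1 : ℝ) else 0) := by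
    intro c _
    have : 0 ≤ (3 + C) * 2 ^ c * Real.sqrt (n + 1) := by positivity
    refine mul_nonneg this ?_
    split_ifs <;> norm_num
  have hD' := sum_nonneg hD
  have hdisp : (disp (pos L π x) (FF T cl L B π R x) : ℝ) ≤ n := by
    exact_mod_cast disp_le (pos L π x) (FF T cl L B π R x)
  by_cases hS : Same cl L B π i R x
  · rw [if_pos hS]
    linarith
  rw [if_neg hS]
  by_cases hk : cm ≤ kls cl L B π R x
  · rw [if_pos hk] at hA ⊢
    nlinarith
  have hk' : kls cl L B π R x < cm := not_le.mp hk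
  by_cases hE : seed cl L B π R x ∈ Ex T cl C cm (pos L π x)
  · have h1 : (∑ ω ∈ Ex T cl C cm (pos L π x),
        if kls cl L B π R x < cm ∧ seed cl L B π R x = ω then (1 : ℝ) else 0) = 1 := by
      rw [sum_eq_single (seed cl L B π R x)]
      · rw [if_pos ⟨hk', rfl⟩]
      · intro w _ hw
        rw [if_neg]
        rintro ⟨-, h⟩
        exact hw h.symm
      · intro h
        exact absurd hE h
    rw [h1] at hB ⊢
    nlinarith
  · have h2 : (disp (pos L π x) (FF T cl L B π R x) : ℝ) ≤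
        C * 2 ^ (kls cl L B π R x) * Real.sqrt (n + 1) := by
      by_contra hcon
      push Not at hcon
      apply hE
      unfold Ex
      rw [mem_filter]
      have hcl := seed_cl cl L B π R x hk'
      refine ⟨mem_univ _, by rw [hcl]; exact hk', ?_⟩
      rw [hcl]
      exact hcon
    have h3 : (3 + C) * 2 ^ (kls cl L B π R x) * Real.sqrt (n + 1) ≤
        ∑ c ∈ range cm, (3 + C) * 2 ^ c * Real.sqrt (n + 1) *
        (if kls cl L B π R x = c ∧ ¬ Same cl L B π i R x then (1 : ℝ) else 0) := by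
      have h4 := single_le_sum hD (mem_range.mpr hk')
      rw [if_pos ⟨rfl, hS⟩, mul_one] at h4
      exact h4
    have h5 : (1 : ℝ) ≤ 2 ^ (kls cl L B π R x) * Real.sqrt (n + 1) := by
      have : (1 : ℝ) ≤ 2 ^ (kls cl L B π R x) := one_le_pow₀ (by norm_num)
      nlinarith
    nlinarith

end

/-- (M11) The expected stretch of the random map. -/
theorem t_STRF (hF : S_FST) : S_STRF := by
  intro C b K hC hb
  refine ⟨4 * C + 2 * (3 * C + 3 * C + (3 + C) * (2 ^ (b + 2) * C + 8 * C)), by positivity, 0, ?_⟩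
  intro m _ n hnm A N T cl cm hSys L B hCode π
  classical
  have hN := hSys.posN
  have hN' : (0 : ℝ) < (N : ℝ) := by exact_mod_cast hN
  set P : ℝ := (Fintype.card (Rnd n N cm) : ℝ) with hP
  have hP0 : 0 ≤ P := Nat.cast_nonneg _
  have hn1 : ((n : ℝ) + 1) = 4 ^ m := by exact_mod_cast hnm
  have hsq : Real.sqrt ((n : ℝ) + 1) = 2 ^ m := by
    rw [hn1]
    have : (4 : ℝ) ^ m = (2 ^ m) ^ 2 := by rw [← pow_mul, mul_comm, pow_mul]; norm_num
    rw [this, Real.sqrt_sq (by positivity)]
  have hnsq : Nat.sqrt (n + 1) = 2 ^ m := by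
    rw [hnm]
    have : 4 ^ m = (2 ^ m) * (2 ^ m) := by rw [← mul_pow]; norm_num
    rw [this, Nat.sqrt_eq]
  have hcard : (Fintype.card (Cube n) : ℝ) = 2 ^ n := by
    simp
  -- Same part
  have hSame : ∑ R : Rnd n N cm, ∑ i : Fin n, ∑ x : Cube n,
      (if Same cl L B π i R x then
        (hammingDist (T (pos L π x) (seed cl L B π R x))
          (T (pos L π (flipV {i} x)) (seed cl L B π R x)) : ℝ) else 0) ≤
      4 * C * (n + 1) * 2 ^ n * P := by
    have h1 : ∀ (i : Fin n) (x : Cube n), ∑ R : Rnd n N cm,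
        (if Same cl L B π i R x then
        (hammingDist (T (pos L π x) (seed cl L B π R x))
          (T (pos L π (flipV {i} x)) (seed cl L B π R x)) : ℝ) else 0) ≤
        P / N * ∑ ω, (hammingDist (T (pos L π x) ω) (T (pos L π (flipV {i} x)) ω) : ℝ) := by
      intro i x
      have e : ∀ R : Rnd n N cm, (if Same cl L B π i R x then
        (hammingDist (T (pos L π x) (seed cl L B π R x))
          (T (pos L π (flipV {i} x)) (seed cl L B π R x)) : ℝ) else 0) =
          ∑ ω, (if Same cl L B π i R x ∧ seed cl L B π R x = ω then (1 : ℝ) else 0) *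
            (hammingDist (T (pos L π x) ω) (T (pos L π (flipV {i} x)) ω) : ℝ) := by
        intro R
        rw [sum_eq_single (seed cl L B π R x)]
        · by_cases hS : Same cl L B π i R x
          · rw [if_pos hS, if_pos ⟨hS, rfl⟩, one_mul]
          · rw [if_neg hS, if_neg (fun h => hS h.1), zero_mul]
        · intro w _ hw
          rw [if_neg (fun h => hw h.2.symm), zero_mul]
        · intro h
          exact absurd (mem_univ _) h
      simp only [e]
      rw [sum_comm, mul_sum]
      refine sum_le_sum (fun ω _ => ?_)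
      rw [← sum_mul]
      exact mul_le_mul_of_nonneg_right (A3 cl L B π hCode.mono hF hN i x ω) (Nat.cast_nonneg _)
    have h2 : ∑ R : Rnd n N cm, ∑ i : Fin n, ∑ x : Cube n,
      (if Same cl L B π i R x then
        (hammingDist (T (pos L π x) (seed cl L B π R x))
          (T (pos L π (flipV {i} x)) (seed cl L B π R x)) : ℝ) else 0) =
      ∑ i : Fin n, ∑ x : Cube n, ∑ R : Rnd n N cm,
      (if Same cl L B π i R x then
        (hammingDist (T (pos L π x) (seed cl L B π R x))
          (T (pos L π (flipV {i} x)) (seed cl L B π R x)) : ℝ) else 0) := by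
      rw [sum_comm]
      exact sum_congr rfl (fun i _ => sum_comm)
    rw [h2]
    refine (sum_le_sum (fun i _ => sum_le_sum (fun x _ => h1 i x))).trans ?_
    have h3 := tele2 L π hCode.bij hCode.lin hCode.col
      (fun s t => ∑ ω, (hammingDist (T s ω) (T t ω) : ℝ)) (fun s => by simp)
      (fun s t u => by
        rw [← sum_add_distrib]
        refine sum_le_sum (fun ω _ => ?_)
        exact_mod_cast hammingDist_triangle (T s ω) (T t ω) (T u ω))
      (fun s t => sum_nonneg (fun ω _ => Nat.cast_nonneg _))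
    have h4 : ∑ i : Fin n, ∑ x, P / N * ∑ ω, (hammingDist (T (pos L π x) ω)
        (T (pos L π (flipV {i} x)) ω) : ℝ) =
        P / N * ∑ i : Fin n, ∑ x, ∑ ω, (hammingDist (T (pos L π x) ω)
        (T (pos L π (flipV {i} x)) ω) : ℝ) := by
      simp only [← mul_sum]
    rw [h4]
    have h5 : 0 ≤ P / N := by positivity
    refine (mul_le_mul_of_nonneg_left (h3.trans (mul_le_mul_of_nonneg_left hSys.str
      (by norm_num))) h5).trans (le_of_eq ?_)
    field_simp
  -- bad part
  have hBad : ∑ i : Fin n, ∑ x : Cube n, ∑ R : Rnd n N cm,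
      (if cm ≤ kls cl L B π R x then (1 : ℝ) else 0) ≤ C * 2 ^ n * P := by
    have h1 : ∀ x : Cube n, ∑ R : Rnd n N cm,
      (if cm ≤ kls cl L B π R x then (1 : ℝ) else 0) =
      P / N * ((univ.filter (fun ω : Fin N => cm ≤ cl (pos L π x) ω)).card : ℝ) := by
      intro x
      rw [A5 cl L B π hN x (fun k => cm ≤ k)]
      ring
    simp only [h1, ← mul_sum]
    rw [sum_const, card_univ, Fintype.card_fin, nsmul_eq_mul]
    rw [sum_pos L π hCode.bij (fun s => ((univ.filter (fun ω : Fin N => cm ≤ cl s ω)).card : ℝ)),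
      ← cardprod (fun (s : Cube n) (ω : Fin N) => cm ≤ cl s ω)]
    have h2 := hSys.bad
    have hn0 : (0 : ℝ) ≤ n := Nat.cast_nonneg _
    have h3 : C * 2 ^ n * N / ((n : ℝ) + 1) ^ 4 ≤ C * 2 ^ n * N / (n + 1) := by
      apply div_le_div_of_nonneg_left (by positivity) (by positivity)
      calc ((n : ℝ) + 1) = (n + 1) ^ 1 := by ring
        _ ≤ (n + 1) ^ 4 := pow_le_pow_right₀ (by linarith) (by norm_num)
    rw [mul_left_comm]
    calc (n : ℝ) * (P / N * ((univ.filter (fun q : Cube n × Fin N => cm ≤ cl q.1 q.2)).card : ℝ))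
        ≤ (n + 1) * (P / N * (C * 2 ^ n * N / (n + 1))) := by
          refine mul_le_mul (by linarith) (mul_le_mul_of_nonneg_left (h2.trans h3) (by positivity))
            (by positivity) (by positivity)
      _ = C * 2 ^ n * P := by field_simp
  -- exceptional part
  have hExc : ∑ i : Fin n, ∑ x : Cube n, ∑ R : Rnd n N cm,
      (∑ ω ∈ Ex T cl C cm (pos L π x),
        if kls cl L B π R x < cm ∧ seed cl L B π R x = ω then (1 : ℝ) else 0) ≤ C * 2 ^ n * P := by
    have h1 : ∀ x : Cube n, ∑ R : Rnd n N cm,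
      (∑ ω ∈ Ex T cl C cm (pos L π x),
        if kls cl L B π R x < cm ∧ seed cl L B π R x = ω then (1 : ℝ) else 0) ≤
      P / N * ((Ex T cl C cm (pos L π x)).card : ℝ) := by
      intro x
      rw [sum_comm]
      refine (sum_le_sum (fun ω _ => A1 cl L B π hF hN x ω)).trans (le_of_eq ?_)
      rw [sum_const, nsmul_eq_mul, mul_comm]
    refine (sum_le_sum (fun i _ => sum_le_sum (fun x _ => h1 x))).trans ?_
    simp only [← mul_sum]
    rw [sum_const, card_univ, Fintype.card_fin, nsmul_eq_mul]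
    rw [sum_pos L π hCode.bij (fun s => ((Ex T cl C cm s).card : ℝ))]
    have h2 : ∑ s, ((Ex T cl C cm s).card : ℝ) =
        ((univ.filter (fun q : Cube n × Fin N => cl q.1 q.2 < cm ∧
      C * 2 ^ (cl q.1 q.2) * Real.sqrt (n + 1) < (disp q.1 (T q.1 q.2) : ℝ))).card : ℝ) := by
      rw [cardprod (fun (s : Cube n) (ω : Fin N) => cl s ω < cm ∧
        C * 2 ^ (cl s ω) * Real.sqrt (n + 1) < (disp s (T s ω) : ℝ))]
      rfl
    rw [h2]
    have h3 := hSys.disp
    rw [hnsq] at h3
    have h4 := pow_half_sqrt m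
    rw [← hn1] at h4
    have hn0 : (0 : ℝ) ≤ n := Nat.cast_nonneg _
    rw [mul_left_comm]
    calc (n : ℝ) * (P / N * ((univ.filter (fun q : Cube n × Fin N => cl q.1 q.2 < cm ∧
      C * 2 ^ (cl q.1 q.2) * Real.sqrt (n + 1) < (disp q.1 (T q.1 q.2) : ℝ))).card : ℝ))
        ≤ (n + 1) * (P / N * (C * 2 ^ n * N * (1 / 2) ^ (2 ^ m))) := by
          refine mul_le_mul (by linarith) (mul_le_mul_of_nonneg_left h3 (by positivity))
            (by positivity) (by positivity)
      _ = (C * 2 ^ n * P) * ((n + 1) * (1 / 2) ^ (2 ^ m)) := by field_simp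
      _ ≤ (C * 2 ^ n * P) * 1 := mul_le_mul_of_nonneg_left h4 (by positivity)
      _ = C * 2 ^ n * P := mul_one _
  -- main part
  have hMain : ∀ c ∈ range cm, ∑ i : Fin n, ∑ x : Cube n, ∑ R : Rnd n N cm,
      (if kls cl L B π R x = c ∧ ¬ Same cl L B π i R x then (1 : ℝ) else 0) ≤
      P / N * (((B c).card : ℝ) *
        ((univ.filter (fun q : Cube n × Fin N => cl q.1 q.2 = c)).card : ℝ) +
        8 * ∑ i : Fin n, ((univ.filter (fun q : Cube n × Fin N =>
          ¬ (cl q.1 q.2 = c ↔ cl (flipV {i} q.1) q.2 = c))).card : ℝ)) := by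
    intro c hc
    have hc' := mem_range.mp hc
    have h1 : ∀ (i : Fin n) (x : Cube n), ∑ R : Rnd n N cm,
        (if kls cl L B π R x = c ∧ ¬ Same cl L B π i R x then (1 : ℝ) else 0) ≤
        P / N * ((if i ∈ B c then
          ((univ.filter (fun ω : Fin N => cl (pos L π x) ω = c)).card : ℝ) else 0) +
          2 * ((univ.filter (fun ω : Fin N => ¬ (cl (pos L π x) ω = c ↔
          cl (pos L π (flipV {i} x)) ω = c))).card : ℝ)) := by
      intro i x
      refine (A4 cl L B π hCode.mono hF hN i x c hc').trans (le_of_eq ?_)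
      split_ifs <;> ring
    refine (sum_le_sum (fun i _ => sum_le_sum (fun x _ => h1 i x))).trans ?_
    simp only [← mul_sum]
    refine mul_le_mul_of_nonneg_left ?_ (by positivity)
    simp only [sum_add_distrib, ← mul_sum]
    refine add_le_add ?_ ?_
    · have h2 : ∀ i : Fin n, ∑ x : Cube n, (if i ∈ B c then
          ((univ.filter (fun ω : Fin N => cl (pos L π x) ω = c)).card : ℝ) else 0) =
          if i ∈ B c then ((univ.filter (fun q : Cube n × Fin N => cl q.1 q.2 = c)).card : ℝ)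
          else 0 := by
        intro i
        by_cases hi : i ∈ B c
        · simp only [if_pos hi]
          rw [sum_pos L π hCode.bij (fun s => ((univ.filter (fun ω : Fin N => cl s ω = c)).card : ℝ)),
            ← cardprod (fun (s : Cube n) (ω : Fin N) => cl s ω = c)]
        · simp only [if_neg hi, sum_const_zero]
      simp only [h2]
      rw [← sum_filter, sum_const, nsmul_eq_mul, filter_univ_mem]
    · have h3 := tele2 L π hCode.bij hCode.lin hCode.col
        (fun s t => ((univ.filter (fun ω : Fin N => ¬ (cl s ω = c ↔ cl t ω = c))).card : ℝ))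
        (fun s => by simp)
        (fun s t u => by
          have : (univ.filter (fun ω : Fin N => ¬ (cl s ω = c ↔ cl u ω = c))) ⊆
            (univ.filter (fun ω : Fin N => ¬ (cl s ω = c ↔ cl t ω = c))) ∪
            (univ.filter (fun ω : Fin N => ¬ (cl t ω = c ↔ cl u ω = c))) := by
            intro ω hω
            simp only [mem_filter, mem_univ, true_and, mem_union] at hω ⊢
            tauto
          exact_mod_cast (card_le_card this).trans (card_union_le _ _))
        (fun s t => Nat.cast_nonneg _)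
      have h4 : ∀ i : Fin n, ∑ s, ((univ.filter (fun ω : Fin N =>
          ¬ (cl s ω = c ↔ cl (flipV {i} s) ω = c))).card : ℝ) =
          ((univ.filter (fun q : Cube n × Fin N =>
          ¬ (cl q.1 q.2 = c ↔ cl (flipV {i} q.1) q.2 = c))).card : ℝ) := by
        intro i
        rw [cardprod (fun (s : Cube n) (ω : Fin N) => ¬ (cl s ω = c ↔ cl (flipV {i} s) ω = c))]
      simp only [h4] at h3
      linarith
  -- sum over the classes
  have hCls : ∑ c ∈ range cm, (3 + C) * 2 ^ c * Real.sqrt (n + 1) *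
      (∑ i : Fin n, ∑ x : Cube n, ∑ R : Rnd n N cm,
      (if kls cl L B π R x = c ∧ ¬ Same cl L B π i R x then (1 : ℝ) else 0)) ≤
      (3 + C) * (2 ^ (b + 2) * C + 8 * C) * (n + 1) * 2 ^ n * P := by
    have h1 : ∀ c ∈ range cm, (3 + C) * 2 ^ c * Real.sqrt (n + 1) *
      (∑ i : Fin n, ∑ x : Cube n, ∑ R : Rnd n N cm,
      (if kls cl L B π R x = c ∧ ¬ Same cl L B π i R x then (1 : ℝ) else 0)) ≤
      (3 + C) * (P / N) * (2 ^ (b + 2) * (n + 1)) *
        (4 ^ c * ((univ.filter (fun q : Cube n × Fin N => cl q.1 q.2 = c)).card : ℝ)) +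
      8 * (3 + C) * (P / N) * Real.sqrt (n + 1) *
        (2 ^ c * ∑ i : Fin n, ((univ.filter (fun q : Cube n × Fin N =>
          ¬ (cl q.1 q.2 = c ↔ cl (flipV {i} q.1) q.2 = c))).card : ℝ)) := by
      intro c hc
      have h2 := hMain c hc
      have h3 := hCode.card c
      have h5 : (3 + C) * 2 ^ c * Real.sqrt (n + 1) * (P / N * (((B c).card : ℝ) *
        ((univ.filter (fun q : Cube n × Fin N => cl q.1 q.2 = c)).card : ℝ))) ≤
        (3 + C) * 2 ^ c * Real.sqrt (n + 1) * (P / N * ((2 ^ (c + b + 2) * 2 ^ m) *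
        ((univ.filter (fun q : Cube n × Fin N => cl q.1 q.2 = c)).card : ℝ))) := by
        refine mul_le_mul_of_nonneg_left (mul_le_mul_of_nonneg_left
          (mul_le_mul_of_nonneg_right h3 (Nat.cast_nonneg _)) (by positivity)) (by positivity)
      have h6 : (3 + C) * 2 ^ c * Real.sqrt (n + 1) * (P / N * ((2 ^ (c + b + 2) * 2 ^ m) *
        ((univ.filter (fun q : Cube n × Fin N => cl q.1 q.2 = c)).card : ℝ))) =
        (3 + C) * (P / N) * (2 ^ (b + 2) * (n + 1)) *
        (4 ^ c * ((univ.filter (fun q : Cube n × Fin N => cl q.1 q.2 = c)).card : ℝ)) := by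
        rw [hsq, hn1]
        have e1 : (4 : ℝ) ^ c = 2 ^ c * 2 ^ c := by rw [← mul_pow]; norm_num
        have e2 : (4 : ℝ) ^ m = 2 ^ m * 2 ^ m := by rw [← mul_pow]; norm_num
        have e3 : (2 : ℝ) ^ (c + b + 2) = 2 ^ c * 2 ^ (b + 2) := by rw [← pow_add]; ring_nf
        rw [e1, e2, e3]
        ring
      calc (3 + C) * 2 ^ c * Real.sqrt (n + 1) *
          (∑ i : Fin n, ∑ x : Cube n, ∑ R : Rnd n N cm,
          (if kls cl L B π R x = c ∧ ¬ Same cl L B π i R x then (1 : ℝ) else 0))
          ≤ (3 + C) * 2 ^ c * Real.sqrt (n + 1) * (P / N * (((B c).card : ℝ) *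
            ((univ.filter (fun q : Cube n × Fin N => cl q.1 q.2 = c)).card : ℝ) +
            8 * ∑ i : Fin n, ((univ.filter (fun q : Cube n × Fin N =>
            ¬ (cl q.1 q.2 = c ↔ cl (flipV {i} q.1) q.2 = c))).card : ℝ))) :=
            mul_le_mul_of_nonneg_left h2 (by positivity)
        _ = (3 + C) * 2 ^ c * Real.sqrt (n + 1) * (P / N * (((B c).card : ℝ) *
            ((univ.filter (fun q : Cube n × Fin N => cl q.1 q.2 = c)).card : ℝ))) +
            8 * (3 + C) * (P / N) * Real.sqrt (n + 1) *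
            (2 ^ c * ∑ i : Fin n, ((univ.filter (fun q : Cube n × Fin N =>
            ¬ (cl q.1 q.2 = c ↔ cl (flipV {i} q.1) q.2 = c))).card : ℝ)) := by ring
        _ ≤ _ := by rw [← h6]; linarith
    refine (sum_le_sum h1).trans ?_
    rw [sum_add_distrib, ← mul_sum, ← mul_sum]
    have h7 := mul_le_mul_of_nonneg_left hSys.clm
      (show 0 ≤ (3 + C) * (P / N) * (2 ^ (b + 2) * ((n : ℝ) + 1)) by positivity)
    have h8 := mul_le_mul_of_nonneg_left hSys.strad
      (show 0 ≤ 8 * (3 + C) * (P / N) * Real.sqrt ((n : ℝ) + 1) by positivity)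
    refine (add_le_add h7 h8).trans (le_of_eq ?_)
    have hs : Real.sqrt ((n : ℝ) + 1) * Real.sqrt ((n : ℝ) + 1) = n + 1 :=
      Real.mul_self_sqrt (by positivity)
    have : 8 * (3 + C) * (P / N) * Real.sqrt ((n : ℝ) + 1) *
        (C * Real.sqrt ((n : ℝ) + 1) * 2 ^ n * N) =
        8 * (3 + C) * (P / N) * (Real.sqrt ((n : ℝ) + 1) * Real.sqrt ((n : ℝ) + 1)) * C * 2 ^ n * N
        := by ring
    rw [this, hs]
    field_simp
  -- NS part
  set G : Fin n → Rnd n N cm → Cube n → ℝ := fun i R x =>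
    (if Same cl L B π i R x then 0 else
        (5 / 2 + (disp (pos L π x) (FF T cl L B π R x) : ℝ))) with hG
  have hNS : ∑ R : Rnd n N cm, ∑ i : Fin n, ∑ x : Cube n, G i R x ≤
      (3 * C + 3 * C + (3 + C) * (2 ^ (b + 2) * C + 8 * C)) * (n + 1) * 2 ^ n * P := by
    have h1 : ∑ R : Rnd n N cm, ∑ i : Fin n, ∑ x : Cube n, G i R x =
        ∑ i : Fin n, ∑ x : Cube n, ∑ R : Rnd n N cm, G i R x := by
      rw [sum_comm]
      exact sum_congr rfl (fun i _ => sum_comm)
    rw [h1]
    refine (sum_le_sum (fun i _ => sum_le_sum (fun x _ => sum_le_sum (fun R _ =>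
      ns_le T cl L B π C hC R i x)))).trans ?_
    simp only [sum_add_distrib, ← mul_sum]
    have h2 : ∑ i : Fin n, ∑ x : Cube n, ∑ R : Rnd n N cm,
        ∑ c ∈ range cm, (3 + C) * 2 ^ c * Real.sqrt (n + 1) *
        (if kls cl L B π R x = c ∧ ¬ Same cl L B π i R x then (1 : ℝ) else 0) =
        ∑ c ∈ range cm, (3 + C) * 2 ^ c * Real.sqrt (n + 1) *
      (∑ i : Fin n, ∑ x : Cube n, ∑ R : Rnd n N cm,
      (if kls cl L B π R x = c ∧ ¬ Same cl L B π i R x then (1 : ℝ) else 0)) := by
      have a1 : ∀ (i : Fin n) (x : Cube n), ∑ R : Rnd n N cm,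
        ∑ c ∈ range cm, (3 + C) * 2 ^ c * Real.sqrt (n + 1) *
        (if kls cl L B π R x = c ∧ ¬ Same cl L B π i R x then (1 : ℝ) else 0) =
        ∑ c ∈ range cm, (3 + C) * 2 ^ c * Real.sqrt (n + 1) *
        ∑ R : Rnd n N cm, (if kls cl L B π R x = c ∧ ¬ Same cl L B π i R x then (1 : ℝ) else 0) := by
        intro i x
        rw [sum_comm]
        exact sum_congr rfl (fun c _ => by rw [mul_sum])
      simp only [a1]
      have a2 : ∀ i : Fin n, ∑ x : Cube n, ∑ c ∈ range cm, (3 + C) * 2 ^ c * Real.sqrt (n + 1) *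
        ∑ R : Rnd n N cm, (if kls cl L B π R x = c ∧ ¬ Same cl L B π i R x then (1 : ℝ) else 0) =
        ∑ c ∈ range cm, (3 + C) * 2 ^ c * Real.sqrt (n + 1) *
        ∑ x : Cube n, ∑ R : Rnd n N cm,
          (if kls cl L B π R x = c ∧ ¬ Same cl L B π i R x then (1 : ℝ) else 0) := by
        intro i
        rw [sum_comm]
        exact sum_congr rfl (fun c _ => by rw [mul_sum])
      simp only [a2]
      rw [sum_comm]
      exact sum_congr rfl (fun c _ => by rw [mul_sum])
    rw [h2]
    have h3 : 3 * ((n : ℝ) + 1) * ∑ i : Fin n, ∑ x : Cube n, ∑ R : Rnd n N cm,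
      (if cm ≤ kls cl L B π R x then (1 : ℝ) else 0) ≤ 3 * ((n : ℝ) + 1) * (C * 2 ^ n * P) :=
      mul_le_mul_of_nonneg_left hBad (by positivity)
    have h4 : 3 * ((n : ℝ) + 1) * ∑ i : Fin n, ∑ x : Cube n, ∑ R : Rnd n N cm,
      (∑ ω ∈ Ex T cl C cm (pos L π x),
        if kls cl L B π R x < cm ∧ seed cl L B π R x = ω then (1 : ℝ) else 0) ≤
        3 * ((n : ℝ) + 1) * (C * 2 ^ n * P) :=
      mul_le_mul_of_nonneg_left hExc (by positivity)
    linarith
  -- conclusion
  have hpair : ∑ R : Rnd n N cm, ∑ i : Fin n, ∑ x : Cube n,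
      (hammingDist (FF T cl L B π R x) (FF T cl L B π R (flipV {i} x)) : ℝ) ≤
      ∑ R : Rnd n N cm, ∑ i : Fin n, ∑ x : Cube n,
      ((if Same cl L B π i R x then
        (hammingDist (T (pos L π x) (seed cl L B π R x))
          (T (pos L π (flipV {i} x)) (seed cl L B π R x)) : ℝ) else 0) +
      (G i R x + G i R (flipV {i} x))) :=
    sum_le_sum (fun R _ => sum_le_sum (fun i _ => sum_le_sum (fun x _ =>
      pair_le T cl L B π hCode.lin hCode.row R i x)))
  refine hpair.trans ?_
  have hflip : ∀ (R : Rnd n N cm) (i : Fin n), ∑ x : Cube n, G i R (flipV {i} x) =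
      ∑ x : Cube n, G i R x := fun R i => Equiv.sum_comp (flipE {i}) (fun x => G i R x)
  simp only [sum_add_distrib, hflip]
  linarith

end Pool.Agent.K1H2.ST
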